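import Pool.Agent.L0h56.HS.Stm

/-!
# Board HS (helper56), module IND (helper85)
-/

set_option autoImplicit false
set_option linter.unusedSectionVars false

namespace Pool.Agent.L0h85.HS

open Pool.Agent.H315R3.ETC Pool.Agent.L0h56.HS

section

variable {S : QData} (h : IsQuat S)

include h in
lemma q1 (v : S.G) : S.q 1 v = S.zero := by rw [h.qs2]; exact q_one h v

include h in
/-- `V(a) ∩ V(a x) = V(a) ∩ V(x)` -/
lemma inter {a x d : S.G} (ha : S.q a d = S.zero) :
    S.q (a * x) d = S.zero ↔ S.q x d = S.zero := by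
  have h1 : S.q d a = S.zero := by rw [h.qs2]; exact ha
  rw [h.qs2 (a * x) d, ← h.qs3 d a x, h1, h.qs2 d x]
  exact eq_comm

variable [Fintype S.G] [DecidableEq S.G] [DecidableEq S.Q]

/-- `|V(a) ∩ V(x)|` -/
def w (S : QData) [Fintype S.G] [DecidableEq S.Q] (a x : S.G) : ℕ :=
  (Finset.univ.filter fun d : S.G => S.q a d = S.zero ∧ S.q x d = S.zero).card

lemma w_eq (a x : S.G) : {d : S.G | S.q a d = S.zero ∧ S.q x d = S.zero}.ncard = w S a x := by
  rw [w, ← Set.ncard_coe_finset]
  congr 1
  ext d
  simp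

/-- `|V(a)|` -/
def vv (S : QData) [Fintype S.G] [DecidableEq S.Q] (a : S.G) : ℕ :=
  (Finset.univ.filter fun d : S.G => S.q a d = S.zero).card

lemma vv_eq (a : S.G) : {d : S.G | S.q a d = S.zero}.ncard = vv S a := by
  rw [vv, ← Set.ncard_coe_finset]
  congr 1
  ext d
  simp

include h in
lemma w_pos (a x : S.G) : 1 ≤ w S a x := by
  apply Finset.card_pos.2
  exact ⟨1, by simp [q_one h]⟩

include h in
lemma w_one {a x : S.G} (hw : w S a x = 1) {d : S.G} (h1 : S.q a d = S.zero)
    (h2 : S.q x d = S.zero) : d = 1 := by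
  obtain ⟨e, he⟩ := Finset.card_eq_one.1 hw
  have h3 : d ∈ (Finset.univ.filter fun d : S.G => S.q a d = S.zero ∧ S.q x d = S.zero) := by
    simp [h1, h2]
  have h4 : (1 : S.G) ∈ (Finset.univ.filter fun d : S.G => S.q a d = S.zero ∧ S.q x d = S.zero) := by
    simp [q_one h]
  rw [he, Finset.mem_singleton] at h3 h4
  rw [h3, h4]

lemma w_self (a : S.G) : w S a a = vv S a := by
  unfold w vv
  congr 1
  ext d
  simp

include h in
lemma w_right (a : S.G) : w S a 1 = vv S a := by
  unfold w vv
  congr 1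
  ext d
  simp [q1 h]

include h in
lemma vv_one : vv S 1 = Fintype.card S.G := by
  unfold vv
  rw [← Finset.card_univ]
  congr 1
  ext d
  simp [q1 h]

include h in
/-- the sum of all `|V(a) ∩ V(x)|` -/
lemma sum_w {N : ℕ} (hN : ∀ a : S.G, a ≠ 1 → vv S a = N) {a : S.G} (ha : a ≠ 1) :
    ∑ x : S.G, w S a x = Fintype.card S.G + (N - 1) * N := by
  have e1 : ∑ x : S.G, w S a x =
      ∑ d ∈ Finset.univ.filter (fun d : S.G => S.q a d = S.zero), vv S d := by
    have e2 : ∀ x : S.G, w S a x =
        ∑ d ∈ Finset.univ.filter (fun d : S.G => S.q a d = S.zero),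
          if S.q x d = S.zero then 1 else 0 := by
      intro x
      rw [← Finset.card_filter, Finset.filter_filter]
      rfl
    rw [Finset.sum_congr rfl fun x _ => e2 x, Finset.sum_comm]
    refine Finset.sum_congr rfl fun d _ => ?_
    rw [← Finset.card_filter]
    unfold vv
    congr 1
    ext x
    simp only [Finset.mem_filter, Finset.mem_univ, true_and]
    rw [h.qs2]
  have h1 : (1 : S.G) ∈ Finset.univ.filter (fun d : S.G => S.q a d = S.zero) := by
    simp [q_one h]
  rw [e1, ← Finset.add_sum_erase _ _ h1, vv_one h]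
  congr 1
  rw [Finset.sum_congr rfl (g := fun _ => N) (fun d hd => hN d (Finset.ne_of_mem_erase hd)),
    Finset.sum_const, smul_eq_mul, Finset.card_erase_of_mem h1]
  have e3 := hN a ha
  unfold vv at e3
  rw [e3]

/-- `|B_x|`, `B_x = {b : q(a,b) ∈ Q_x}` -/
noncomputable def bb (S : QData) [Fintype S.G] [DecidableEq S.Q] (a x : S.G) : ℕ :=
  (Finset.univ.filter fun b : S.G => ∃ y, S.q x y = S.q a b).card

include h in
lemma bb_mul {N : ℕ} (hN : ∀ a : S.G, a ≠ 1 → vv S a = N) {a x : S.G} (ha : a ≠ 1)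
    (hx : x ≠ a) : bb S a x * w S a x = N * N := by
  have hax : a * x ≠ 1 := fun e => hx (eq_of_mul h _ _ e).symm
  have e1 : ∑ b : S.G, ∑ z : S.G, (if S.q (a * x) z = S.zero ∧ S.q a (b * z) = S.zero then 1 else 0)
      = bb S a x * w S a x := by
    have e2 : ∀ b : S.G, ∑ z : S.G, (if S.q (a * x) z = S.zero ∧ S.q a (b * z) = S.zero then 1 else 0)
        = if (∃ y, S.q x y = S.q a b) then w S a x else 0 := by
      intro b
      rw [← Finset.card_filter]
      split_ifs with hb
      · obtain ⟨y, hy⟩ := hb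
        obtain ⟨z₀, h1, h2⟩ := h.qs4 _ _ _ _ hy
        rw [hy] at h1
        -- `h1 : q a b = q x z₀`, `h2 : q a b = q a z₀`
        have h3 : S.q a (b * z₀) = S.zero := (h.qs3 _ _ _).1 h2
        have h4 : S.q (a * x) z₀ = S.zero := by
          rw [h.qs2, ← h.qs3, h.qs2 z₀ a, h.qs2 z₀ x, ← h1, ← h2]
        unfold w
        refine Finset.card_equiv (Equiv.mulRight z₀) fun z => ?_
        simp only [Finset.mem_filter, Finset.mem_univ, true_and, Equiv.coe_mulRight]
        constructor
        · rintro ⟨h5, h6⟩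
          have h7 : S.q a (z * z₀) = S.zero := by
            have := p_mul h h6 h3
            have e : b * z * (b * z₀) = z * z₀ := by
              rw [mul_mul_mul_comm, h.exp2, one_mul]
            rwa [e] at this
          exact ⟨h7, (inter h h7).1 (p_mul h h5 h4)⟩
        · rintro ⟨h5, h6⟩
          have h7 := (inter h h5).2 h6
          have e : z * z₀ * z₀ = z := mul_cancel h _ _
          constructor
          · have := p_mul h h7 h4
            rwa [e] at this
          · have := p_mul h h3 h5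
            have e' : b * z₀ * (z * z₀) = b * z := by
              rw [mul_comm z z₀, mul_assoc, ← mul_assoc z₀, h.exp2, one_mul]
            rwa [e'] at this
      · rw [Finset.card_eq_zero, Finset.filter_eq_empty_iff]
        rintro z - ⟨h1, h2⟩
        apply hb
        refine ⟨z, ?_⟩
        have h3 : S.q a b = S.q a z := (h.qs3 _ _ _).2 h2
        have h4 : S.q z a = S.q z x := by
          rw [h.qs3, h.qs2]
          exact h1
        rw [h3, h.qs2 x z, h.qs2 a z, h4]
    rw [Finset.sum_congr rfl fun b _ => e2 b, ← Finset.sum_filter, Finset.sum_const, smul_eq_mul]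
    rfl
  rw [← e1, Finset.sum_comm]
  have e3 : ∀ z : S.G, ∑ b : S.G, (if S.q (a * x) z = S.zero ∧ S.q a (b * z) = S.zero then 1 else 0)
      = if S.q (a * x) z = S.zero then N else 0 := by
    intro z
    split_ifs with hz
    · rw [← Finset.card_filter, ← hN a ha]
      unfold vv
      refine Finset.card_equiv (Equiv.mulRight z) fun b => ?_
      simp [hz]
    · apply Finset.sum_eq_zero
      intro b _
      rw [if_neg]
      exact fun h' => hz h'.1
  rw [Finset.sum_congr rfl fun z _ => e3 z, ← Finset.sum_filter, Finset.sum_const, smul_eq_mul]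
  congr 1
  exact hN (a * x) hax

end

/-- the core: for a set `T` of values of `q(a,·)` -/
theorem ind_core : S_DSM → ∀ S : QData, IsQuat S → Finite S.G → ∀ N : ℕ, 2 ≤ N →
    (∀ a : S.G, a ≠ 1 → {b : S.G | S.q a b = S.zero}.ncard = N) →
    ∀ a : S.G, a ≠ 1 → ∀ T : Set S.Q, (∀ t ∈ T, t ≠ S.zero ∧ ∃ b, S.q a b = t) →
    (N - 1) * (N - 2) ^ 2 < 2 * T.ncard → ∃ t ∈ T, Indep S t := by
  intro hDSM S h hfin N hN2 hN a ha T hT hbig
  classical
  have : Fintype S.G := Fintype.ofFinite _
  by_contra hcon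
  push Not at hcon
  have hv : ∀ a : S.G, a ≠ 1 → vv S a = N := fun a ha => by rw [← vv_eq]; exact hN a ha
  -- DSM as a finite sum
  have dsm : ∀ (t : S.Q) (a b : S.G), t ≠ S.zero → S.q a b = t →
      ∑ x ∈ Finset.univ.filter (fun x : S.G => ∃ y, S.q x y = t), w S a x = N ^ 2 := by
    intro t a b ht hab
    rw [← hDSM S h hfin N hN t a b ht hab]
    have e : {x : S.G | ∃ y, S.q x y = t} =
        ((Finset.univ.filter (fun x : S.G => ∃ y, S.q x y = t) : Finset S.G) : Set S.G) := by
      ext x
      simp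
    rw [e, finsum_mem_coe_finset]
    exact Finset.sum_congr rfl fun x _ => (w_eq a x).symm
  -- step A
  have stepA : ∀ b : S.G, S.q a b ∈ T →
      ∃ x, x ≠ a ∧ (∃ y, S.q x y = S.q a b) ∧ 2 ≤ w S a x := by
    intro b hbT
    have hab := (hT _ hbT).1
    by_contra hA
    push Not at hA
    apply hcon (S.q a b) hbT
    have hw : ∀ x, x ≠ a → (∃ y, S.q x y = S.q a b) → w S a x = 1 := by
      intro x h1 h2
      have h3 := hA x h1 h2
      have h4 := w_pos h a x
      omega
    set Dt := Finset.univ.filter (fun x : S.G => ∃ y, S.q x y = S.q a b) with hDt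
    have haD : a ∈ Dt := by
      rw [hDt, Finset.mem_filter]
      exact ⟨Finset.mem_univ _, b, rfl⟩
    have s1 := dsm (S.q a b) a b hab rfl
    rw [← hDt, ← Finset.add_sum_erase _ _ haD, w_self, hv a ha,
      Finset.sum_congr rfl (g := fun _ => 1) (fun x hx => hw x (Finset.ne_of_mem_erase hx)
        (Finset.mem_filter.1 (Finset.mem_of_mem_erase hx)).2), Finset.sum_const, smul_eq_mul,
      mul_one, Finset.card_erase_of_mem haD] at s1
    rintro u v huv ⟨x, hx⟩ ⟨y, hy⟩ d hd1 hd2
    have hu1 : u ≠ 1 := by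
      rintro rfl
      rw [q1 h] at hx
      exact hab hx.symm
    have huD : u ∈ Dt := by
      rw [hDt, Finset.mem_filter]
      exact ⟨Finset.mem_univ _, x, hx⟩
    have hvD : v ∈ Dt.erase u := by
      rw [Finset.mem_erase, hDt, Finset.mem_filter]
      exact ⟨huv.symm, Finset.mem_univ _, y, hy⟩
    have s2 := dsm (S.q a b) u x hab hx
    rw [← hDt, ← Finset.add_sum_erase _ _ huD, w_self, hv u hu1,
      ← Finset.add_sum_erase _ _ hvD] at s2
    have s3 : ((Dt.erase u).erase v).card ≤ ∑ z ∈ (Dt.erase u).erase v, w S u z := by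
      rw [Finset.card_eq_sum_ones]
      exact Finset.sum_le_sum fun z _ => w_pos h u z
    rw [Finset.card_erase_of_mem hvD, Finset.card_erase_of_mem huD] at s3
    have s4 := w_pos h u v
    have s5 : 0 < (Dt.erase u).card := Finset.card_pos.2 ⟨v, hvD⟩
    rw [Finset.card_erase_of_mem huD] at s5
    have s6 : w S u v = 1 := by omega
    exact w_one h s6 hd1 hd2
  set E : Finset S.G := (Finset.univ.erase 1).erase a with hE
  have haE : a ∈ Finset.univ.erase (1 : S.G) := by simp [ha]
  have hEm : ∀ x, x ∈ E ↔ x ≠ a ∧ x ≠ 1 := by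
    intro x
    rw [hE, Finset.mem_erase, Finset.mem_erase]
    simp
  have c1 := sum_w h hv ha
  rw [← Finset.add_sum_erase _ _ (Finset.mem_univ (1 : S.G)), ← Finset.add_sum_erase _ _ haE,
    w_self, w_right h, hv a ha, ← hE] at c1
  have c2 : ∑ x ∈ E, w S a x = ∑ x ∈ E, (w S a x - 1) + E.card := by
    rw [Finset.card_eq_sum_ones, ← Finset.sum_add_distrib]
    refine Finset.sum_congr rfl fun x _ => ?_
    have := w_pos h a x
    omega
  have c3 : E.card + 2 = Fintype.card S.G := by
    rw [hE, Finset.card_erase_of_mem haE, Finset.card_erase_of_mem (Finset.mem_univ _),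
      Finset.card_univ]
    have h1 : 0 < (Finset.univ.erase (1 : S.G)).card := Finset.card_pos.2 ⟨a, haE⟩
    rw [Finset.card_erase_of_mem (Finset.mem_univ _), Finset.card_univ] at h1
    omega
  -- the double count
  have hTfin : T.Finite := by
    apply (Set.finite_range fun b : S.G => S.q a b).subset
    intro t ht
    obtain ⟨b, hb⟩ := (hT t ht).2
    exact ⟨b, hb⟩
  set F := Finset.univ.filter (fun b : S.G => S.q a b ∈ T) with hF
  have c4 : F.card = N * T.ncard := by
    rw [Set.ncard_eq_toFinset_card T hTfin, mul_comm,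
      Finset.card_eq_sum_card_fiberwise (f := fun b : S.G => S.q a b) (t := hTfin.toFinset)
        (fun b hb => by
          rw [Finset.mem_coe, Set.Finite.mem_toFinset]
          exact (Finset.mem_filter.1 hb).2)]
    rw [← smul_eq_mul, ← Finset.sum_const]
    refine Finset.sum_congr rfl fun t ht => ?_
    rw [Set.Finite.mem_toFinset] at ht
    obtain ⟨b₀, hb₀⟩ := (hT t ht).2
    rw [← hv a ha]
    unfold vv
    refine Finset.card_equiv (Equiv.mulRight b₀) fun b => ?_
    simp only [hF, Finset.mem_filter, Finset.mem_univ, true_and, Equiv.coe_mulRight]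
    rw [← h.qs3, hb₀]
    refine ⟨fun h1 => h1.2, fun h1 => ⟨?_, h1⟩⟩
    rw [h1]
    exact ht
  have c5 : F.card ≤ ∑ b ∈ F, ∑ x ∈ E, (if (∃ y, S.q x y = S.q a b) then w S a x - 1 else 0) := by
    rw [Finset.card_eq_sum_ones]
    refine Finset.sum_le_sum fun b hb => ?_
    have hbT : S.q a b ∈ T := (Finset.mem_filter.1 hb).2
    have hb' : S.q a b ≠ S.zero := (hT _ hbT).1
    obtain ⟨x, hx1, hx2, hx3⟩ := stepA b hbT
    have hxE : x ∈ E := by
      rw [hEm]
      refine ⟨hx1, ?_⟩
      rintro rfl
      obtain ⟨y, hy⟩ := hx2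
      rw [q1 h] at hy
      exact hb' hy.symm
    refine le_trans ?_ (Finset.single_le_sum (f := fun x => if (∃ y, S.q x y = S.q a b) then
      w S a x - 1 else 0) (fun _ _ => Nat.zero_le _) hxE)
    simp only [if_pos hx2]
    omega
  rw [Finset.sum_comm] at c5
  have c6 : ∀ x ∈ E, 2 * ∑ b ∈ F, (if (∃ y, S.q x y = S.q a b) then w S a x - 1 else 0) ≤
      (N * (N - 2)) * (w S a x - 1) := by
    intro x hx
    rw [hEm] at hx
    rw [← Finset.sum_filter, Finset.sum_const, smul_eq_mul]
    have h1 := bb_mul h hv ha hx.1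
    -- the size of the set
    have h2 : (F.filter fun b => ∃ y, S.q x y = S.q a b).card + N ≤ bb S a x := by
      have h3 := Finset.card_filter_add_card_filter_not
        (s := Finset.univ.filter fun b : S.G => ∃ y, S.q x y = S.q a b)
        (fun b : S.G => S.q a b = S.zero)
      have e1 : (Finset.univ.filter fun b : S.G => ∃ y, S.q x y = S.q a b).filter
          (fun b : S.G => S.q a b = S.zero) = Finset.univ.filter (fun b : S.G => S.q a b = S.zero) := by
        ext b
        simp only [Finset.mem_filter, Finset.mem_univ, true_and]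
        refine ⟨fun h => h.2, fun hb => ⟨⟨1, ?_⟩, hb⟩⟩
        rw [q_one h, hb]
      have e2 : F.filter (fun b => ∃ y, S.q x y = S.q a b) ⊆
          (Finset.univ.filter fun b : S.G => ∃ y, S.q x y = S.q a b).filter
          (fun b : S.G => ¬ S.q a b = S.zero) := by
        intro b
        simp only [hF, Finset.mem_filter, Finset.mem_univ, true_and]
        rintro ⟨h5, h6⟩
        exact ⟨h6, (hT _ h5).1⟩
      have e3 := Finset.card_le_card e2
      rw [e1] at h3
      have h4 := hv a ha
      unfold vv at h4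
      rw [h4] at h3
      unfold bb
      omega
    have h5 := w_pos h a x
    obtain ⟨n, rfl⟩ : ∃ n, N = n + 2 := ⟨N - 2, by omega⟩
    rw [Nat.add_sub_cancel]
    rcases Nat.eq_or_lt_of_le h5 with h6 | h6
    · rw [← h6]
      simp
    · obtain ⟨k, hk⟩ : ∃ k, w S a x = k + 2 := ⟨w S a x - 2, by omega⟩
      rw [hk] at h1 ⊢
      set β := (F.filter fun b => ∃ y, S.q x y = S.q a b).card with hβ
      have h7 : 2 * β ≤ (n + 2) * n := by
        nlinarith [Nat.zero_le (k * bb S a x)]
      have e : k + 2 - 1 = k + 1 := rfl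
      rw [e]
      nlinarith [Nat.mul_le_mul_right (k + 1) h7]
  have c7 : 2 * F.card ≤ (N * (N - 2)) * ∑ x ∈ E, (w S a x - 1) := by
    calc 2 * F.card ≤ 2 * ∑ x ∈ E, ∑ b ∈ F, (if (∃ y, S.q x y = S.q a b) then w S a x - 1 else 0) := by
          omega
      _ = ∑ x ∈ E, 2 * ∑ b ∈ F, (if (∃ y, S.q x y = S.q a b) then w S a x - 1 else 0) :=
          Finset.mul_sum _ _ _
      _ ≤ ∑ x ∈ E, (N * (N - 2)) * (w S a x - 1) := Finset.sum_le_sum c6
      _ = _ := (Finset.mul_sum _ _ _).symm
  obtain ⟨n, rfl⟩ : ∃ n, N = n + 2 := ⟨N - 2, by omega⟩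
  have e1 : n + 2 - 1 = n + 1 := rfl
  have e2 : n + 2 - 2 = n := rfl
  rw [e1] at c1 hbig
  rw [e2] at c7 hbig
  have c8 : ∑ x ∈ E, (w S a x - 1) = (n + 1) * n := by nlinarith
  rw [c8, c4] at c7
  have c9 : (n + 2) * (2 * T.ncard) ≤ (n + 2) * ((n + 1) * n ^ 2) := by
    calc (n + 2) * (2 * T.ncard) = 2 * ((n + 2) * T.ncard) := by ring
      _ ≤ (n + 2) * n * ((n + 1) * n) := c7
      _ = _ := by ring
  have c10 := Nat.le_of_mul_le_mul_left c9 (by omega)
  omega

theorem t_IND : S_DSM → S_IND := by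
  intro hDSM S h hfin N hN2 hN hbig
  classical
  have : Fintype S.G := Fintype.ofFinite _
  have hg : Nat.card S.G = Fintype.card S.G := Nat.card_eq_fintype_card
  obtain ⟨a, ha⟩ : ∃ a : S.G, a ≠ 1 := by
    by_contra hall
    push Not at hall
    have : Fintype.card S.G ≤ 1 := Fintype.card_le_one_iff.2 fun x y => (hall x).trans (hall y).symm
    rw [hg] at hbig
    omega
  set T : Set S.Q := {t : S.Q | t ≠ S.zero ∧ ∃ b, S.q a b = t} with hT
  have hTfin : T.Finite := by
    apply (Set.finite_range fun b : S.G => S.q a b).subset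
    rintro t ⟨-, b, hb⟩
    exact ⟨b, hb⟩
  -- the number of the values
  have key : Nat.card S.G ≤ N * T.ncard + N := by
    have h1 : Fintype.card S.G = (Finset.univ : Finset S.G).card := Finset.card_univ.symm
    rw [hg, h1, Finset.card_eq_sum_card_fiberwise (f := fun b : S.G => S.q a b)
      (t := insert S.zero hTfin.toFinset) (fun b _ => by
        rw [Finset.mem_coe, Finset.mem_insert, Set.Finite.mem_toFinset]
        by_cases hb : S.q a b = S.zero
        · exact Or.inl hb
        · exact Or.inr ⟨hb, b, rfl⟩)]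
    have h2 : ∀ t ∈ insert S.zero hTfin.toFinset,
        (Finset.univ.filter fun b : S.G => S.q a b = t).card ≤ N := by
      intro t ht
      by_cases hne : ∃ b₀, S.q a b₀ = t
      · obtain ⟨b₀, hb₀⟩ := hne
        have h3 : vv S a = N := by rw [← vv_eq]; exact hN a ha
        rw [← h3]
        refine le_of_eq ?_
        unfold vv
        refine Finset.card_equiv (Equiv.mulRight b₀) fun b => ?_
        simp only [Finset.mem_filter, Finset.mem_univ, true_and, Equiv.coe_mulRight]
        rw [← h.qs3, hb₀]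
      · rw [Finset.card_eq_zero.2]
        · omega
        · rw [Finset.filter_eq_empty_iff]
          intro b _ hb
          exact hne ⟨b, hb⟩
    refine (Finset.sum_le_card_nsmul _ _ _ h2).trans ?_
    rw [smul_eq_mul]
    have h4 := Finset.card_insert_le S.zero hTfin.toFinset
    rw [← Set.ncard_eq_toFinset_card T hTfin] at h4
    nlinarith
  obtain ⟨t, ht, hI⟩ := ind_core hDSM S h hfin N hN2 hN a ha T (fun t ht => ht) (by
    by_contra hcon
    push Not at hcon
    have := Nat.mul_le_mul_left N hcon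
    nlinarith)
  obtain ⟨ht0, b, hb⟩ := ht
  exact ⟨t, ht0, ⟨a, b, hb⟩, hI⟩

end Pool.Agent.L0h85.HS
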